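import Pool.Agent.Lib.MP_d8f343_coH20.Main

/-!
# MP_d8f343_co: constant and subpolynomial coplanarity give the same exponent
-/

set_option autoImplicit false

namespace Pool.Agent.Results.MP_d8f343_co.ConstantCoplanarity

open UnitSpheres

theorem result (α : ℝ) (h0 : 0 < α) (h3 : α ≤ 3) : Subpoly α ↔ Constant α :=
  ⟨constant_of_subpoly, subpoly_of_constant h0 h3⟩

end Pool.Agent.Results.MP_d8f343_co.ConstantCoplanarity
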